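import Pool.Agent.Q163.ND.Even

/-!
Project ED (helper270): words in which no letter occurs exactly once.
-/

set_option autoImplicit false

namespace Pool.Agent.Q270.ED

open Finset Filter Pool.Agent.Q163.ND

/-- the pairs of words in which no letter occurs exactly once -/
def NoOne (n q : ℕ) : Finset ((Fin q → Fin n) × (Fin q → Fin n)) :=
  univ.filter fun t => ∀ h, ct t.1 t.2 h ≠ 1

/-- three values with mean zero -/
def tv (b : Fin 3) : ℝ := if b = 0 then 2 else -1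

lemma sum_tv (c : ℕ) : ∑ b : Fin 3, tv b ^ c = 2 ^ c + 2 * (-1) ^ c := by
  rw [Fin.sum_univ_three]
  simp [tv]
  ring

lemma tv_nonneg (c : ℕ) : 0 ≤ ∑ b : Fin 3, tv b ^ c := by
  rw [sum_tv]
  rcases Nat.even_or_odd c with h | h
  · rw [h.neg_one_pow]
    positivity
  · rw [h.neg_one_pow]
    have h1 : 1 ≤ c := h.pos
    have : (2 : ℝ) ^ 1 ≤ 2 ^ c := pow_le_pow_right₀ (by norm_num) h1
    linarith

lemma tv_ge (c : ℕ) (hc : c ≠ 1) : 3 ≤ ∑ b : Fin 3, tv b ^ c := by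
  rw [sum_tv]
  rcases Nat.even_or_odd c with h | h
  · rw [h.neg_one_pow]
    have : (1 : ℝ) ≤ 2 ^ c := one_le_pow₀ (by norm_num)
    linarith
  · rw [h.neg_one_pow]
    have h1 : 3 ≤ c := by
      obtain ⟨r, rfl⟩ := h
      omega
    have : (2 : ℝ) ^ 3 ≤ 2 ^ c := pow_le_pow_right₀ (by norm_num) h1
    linarith

lemma sum_three {n : ℕ} (F : Fin n → Fin 3 → ℝ) :
    ∑ ε : Fin n → Fin 3, ∏ h, F h (ε h) = ∏ h, ∑ b : Fin 3, F h b := by
  rw [Finset.prod_univ_sum, Fintype.piFinset_univ]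

lemma noOne_count (n q : ℕ) : (3 : ℝ) ^ n * (NoOne n q).card ≤
    ∑ ε : Fin n → Fin 3, (∑ h, tv (ε h)) ^ (2 * q) := by
  have e1 : ∑ ε : Fin n → Fin 3, (∑ h, tv (ε h)) ^ (2 * q) =
      ∑ t : (Fin q → Fin n) × (Fin q → Fin n), ∏ h, ∑ b : Fin 3, tv b ^ ct t.1 t.2 h := by
    have e2 : ∀ ε : Fin n → Fin 3, (∑ h, tv (ε h)) ^ (2 * q) =
        ∑ t : (Fin q → Fin n) × (Fin q → Fin n), ∏ h, tv (ε h) ^ ct t.1 t.2 h := by
      intro ε
      rw [mul_comm, pow_mul, Fintype.sum_pow, sq, sum_mul_sum, Fintype.sum_prod_type]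
      refine sum_congr rfl fun w _ => sum_congr rfl fun w' _ => ?_
      exact prod_two (fun h => tv (ε h)) w w'
    simp_rw [e2]
    rw [sum_comm]
    refine sum_congr rfl fun t _ => ?_
    exact sum_three (fun h b => tv b ^ ct t.1 t.2 h)
  rw [e1]
  have e3 : ∀ t : (Fin q → Fin n) × (Fin q → Fin n), 0 ≤ ∏ h, ∑ b : Fin 3, tv b ^ ct t.1 t.2 h :=
    fun t => prod_nonneg fun h _ => tv_nonneg _
  calc (3 : ℝ) ^ n * (NoOne n q).card = ∑ t ∈ NoOne n q, (3 : ℝ) ^ n := by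
        rw [sum_const, nsmul_eq_mul, mul_comm]
    _ ≤ ∑ t ∈ NoOne n q, ∏ h, ∑ b : Fin 3, tv b ^ ct t.1 t.2 h := by
        refine sum_le_sum fun t ht => ?_
        have h1 := (mem_filter.1 ht).2
        calc (3 : ℝ) ^ n = ∏ _h : Fin n, (3 : ℝ) := by rw [prod_const, card_univ, Fintype.card_fin]
          _ ≤ _ := prod_le_prod (fun _ _ => by norm_num) fun h _ => tv_ge _ (h1 h)
    _ ≤ _ := sum_le_sum_of_subset_of_nonneg (filter_subset _ _) fun t _ _ => e3 t

lemma exp_le_sq (x : ℝ) : Real.exp x ≤ x + Real.exp (x ^ 2) := by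
  rcases le_or_gt |x| 1 with h | h
  · have h1 := Real.abs_exp_sub_one_sub_id_le h
    have h2 := (abs_le.1 h1).2
    have h3 := Real.add_one_le_exp (x ^ 2)
    linarith
  · rcases lt_abs.1 h with h1 | h1
    · have h2 : Real.exp x ≤ Real.exp (x ^ 2) := Real.exp_le_exp.2 (by nlinarith)
      linarith
    · have h2 : Real.exp x ≤ 1 := Real.exp_le_one_iff.2 (by linarith)
      have h3 := Real.add_one_le_exp (x ^ 2)
      nlinarith

lemma exp_three (n : ℕ) (l : ℝ) : ∑ ε : Fin n → Fin 3, Real.exp (l * ∑ h, tv (ε h)) ≤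
    3 ^ n * Real.exp (4 * l ^ 2 * n) := by
  have e1 : ∀ ε : Fin n → Fin 3, Real.exp (l * ∑ h, tv (ε h)) = ∏ h, Real.exp (l * tv (ε h)) := by
    intro ε
    rw [mul_sum, Real.exp_sum]
  simp_rw [e1]
  rw [sum_three (fun _ b => Real.exp (l * tv b)), prod_const, card_univ, Fintype.card_fin]
  have e2 : ∑ b : Fin 3, Real.exp (l * tv b) ≤ 3 * Real.exp (4 * l ^ 2) := by
    have e0 : ∑ b : Fin 3, Real.exp (l * tv b) = Real.exp (2 * l) + 2 * Real.exp (-l) := by
      rw [Fin.sum_univ_three]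
      simp [tv]
      ring_nf
    have h1 := exp_le_sq (2 * l)
    have h2 := exp_le_sq (-l)
    have h3 : Real.exp ((-l) ^ 2) ≤ Real.exp (4 * l ^ 2) := Real.exp_le_exp.2 (by nlinarith [sq_nonneg l])
    have h4 : Real.exp ((2 * l) ^ 2) = Real.exp (4 * l ^ 2) := by
      congr 1
      ring
    rw [e0]
    linarith
  calc (∑ b : Fin 3, Real.exp (l * tv b)) ^ n ≤ (3 * Real.exp (4 * l ^ 2)) ^ n :=
        pow_le_pow_left₀ (sum_nonneg fun _ _ => (Real.exp_pos _).le) e2 n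
    _ = 3 ^ n * Real.exp (4 * l ^ 2 * n) := by
        rw [mul_pow, ← Real.exp_nat_mul]
        congr 2
        ring

/-- the number of the pairs of words in which no letter occurs exactly once -/
theorem noOne_le (n q : ℕ) (hn : 1 ≤ n) (hq : 1 ≤ q) :
    ((NoOne n q).card : ℝ) ≤ 2 * (16 * q * n * Real.exp 1) ^ q := by
  have hn0 : (0 : ℝ) < n := by exact_mod_cast hn
  have hq0 : (0 : ℝ) < q := by exact_mod_cast hq
  obtain ⟨l, hl⟩ : ∃ l : ℝ, l = Real.sqrt (q / (4 * n)) := ⟨_, rfl⟩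
  have hl2 : l ^ 2 = q / (4 * n) := by rw [hl]; exact Real.sq_sqrt (by positivity)
  have hl0 : 0 < l := by rw [hl]; exact Real.sqrt_pos.2 (by positivity)
  have h1 : ∀ x : ℝ, (l * x) ^ (2 * q) ≤ (2 * q).factorial * (Real.exp (l * x) + Real.exp (-l * x)) := by
    intro x
    have e1 : (l * x) ^ (2 * q) = |l * x| ^ (2 * q) := by
      rw [Even.pow_abs (even_two_mul q)]
    have e2 := Real.pow_div_factorial_le_exp |l * x| (abs_nonneg _) (2 * q)
    have hf : (0 : ℝ) < (2 * q).factorial := by exact_mod_cast Nat.factorial_pos _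
    rw [div_le_iff₀ hf] at e2
    rw [e1]
    refine e2.trans ?_
    rw [mul_comm]
    refine mul_le_mul_of_nonneg_left ?_ hf.le
    rcases abs_choice (l * x) with h | h
    · rw [h]
      linarith [Real.exp_pos (-l * x)]
    · rw [h]
      have : -(l * x) = -l * x := by ring
      rw [this]
      linarith [Real.exp_pos (l * x)]
  have h2 : l ^ (2 * q) * ∑ ε : Fin n → Fin 3, (∑ h, tv (ε h)) ^ (2 * q) ≤
      (2 * q).factorial * (2 * (3 ^ n * Real.exp (4 * l ^ 2 * n))) := by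
    rw [mul_sum]
    calc ∑ ε : Fin n → Fin 3, l ^ (2 * q) * (∑ h, tv (ε h)) ^ (2 * q)
        ≤ ∑ ε : Fin n → Fin 3, (2 * q).factorial * (Real.exp (l * ∑ h, tv (ε h)) +
            Real.exp (-l * ∑ h, tv (ε h))) := by
          refine sum_le_sum fun ε _ => ?_
          rw [← mul_pow]
          exact h1 _
      _ = (2 * q).factorial * (∑ ε : Fin n → Fin 3, Real.exp (l * ∑ h, tv (ε h)) +
            ∑ ε : Fin n → Fin 3, Real.exp (-l * ∑ h, tv (ε h))) := by
          rw [← mul_sum, sum_add_distrib]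
      _ ≤ _ := by
          refine mul_le_mul_of_nonneg_left ?_ (Nat.cast_nonneg _)
          have a1 := exp_three n l
          have a2 := exp_three n (-l)
          rw [neg_sq] at a2
          linarith
  have h3 : l ^ (2 * q) * ((3 : ℝ) ^ n * (NoOne n q).card) ≤
      (2 * q).factorial * (2 * (3 ^ n * Real.exp (4 * l ^ 2 * n))) :=
    (mul_le_mul_of_nonneg_left (noOne_count n q) (by positivity)).trans h2
  have h4 : l ^ (2 * q) * ((NoOne n q).card : ℝ) ≤ (2 * q).factorial * (2 * Real.exp (4 * l ^ 2 * n)) := by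
    have h2n : (0 : ℝ) < 3 ^ n := by positivity
    refine le_of_mul_le_mul_left ?_ h2n
    calc (3 : ℝ) ^ n * (l ^ (2 * q) * (NoOne n q).card) = l ^ (2 * q) * ((3 : ℝ) ^ n * (NoOne n q).card) := by
          ring
      _ ≤ (2 * q).factorial * (2 * (3 ^ n * Real.exp (4 * l ^ 2 * n))) := h3
      _ = _ := by ring
  have h5 : 4 * l ^ 2 * n = q := by
    rw [hl2]
    field_simp
  have h6 : l ^ (2 * q) = (q / (4 * n) : ℝ) ^ q := by rw [pow_mul, hl2]
  rw [h5, h6] at h4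
  have h7 : ((2 * q).factorial : ℝ) ≤ (2 * q : ℝ) ^ (2 * q) := by
    have := Nat.factorial_le_pow (2 * q)
    exact_mod_cast this
  have h8 : Real.exp (q : ℝ) = Real.exp 1 ^ q := by
    rw [← Real.exp_nat_mul, mul_one]
  have h9 : (0 : ℝ) < (q / (4 * n) : ℝ) ^ q := by positivity
  refine le_of_mul_le_mul_left ?_ h9
  calc (q / (4 * n) : ℝ) ^ q * (NoOne n q).card ≤ (2 * q).factorial * (2 * Real.exp q) := h4
    _ ≤ (2 * q : ℝ) ^ (2 * q) * (2 * Real.exp q) := mul_le_mul_of_nonneg_right h7 (by positivity)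
    _ = (q / (4 * n) : ℝ) ^ q * (2 * (16 * q * n * Real.exp 1) ^ q) := by
        rw [h8, pow_mul]
        have : ((2 * q : ℝ) ^ 2) = (q / (4 * n)) * (16 * q * n) := by field_simp; ring
        rw [this, mul_pow, mul_pow (16 * q * n : ℝ)]
        ring

end Pool.Agent.Q270.ED
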