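import Pool.Agent.Q270.ED.Mx
import Pool.Agent.Q163.ND.Norm

/-!
Project ED (helper270): contractions of zero entropy.
-/

set_option autoImplicit false

namespace Pool.Agent.Q270.ED

open Finset Filter Pool.Agent.Q270.EA Pool.Agent.Q270.EB Pool.Agent.Q270.EC
open Pool.Agent.Q163.ND (Mk block_avg iter_le iter_sum)

/-- the vector `x` has slow orbit: for infinitely many `n` its first `n` translates factor, up to a small mean
error, through the `k × k` matrices by linear contractions, `k ≤ exp (ε n)` -/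
def Slow {X Y : Type*} [NormedAddCommGroup X] [NormedSpace ℂ X] [NormedAddCommGroup Y]
    [NormedSpace ℂ Y] (π : X → Y) (T : X → X) (x : X) : Prop :=
  ∀ ε : ℝ, 0 < ε → ∃ᶠ n : ℕ in atTop, ∃ (k : ℕ) (φ : X →ₗ[ℂ] Mk k) (ψ : Mk k →ₗ[ℂ] Y),
    (k : ℝ) ≤ Real.exp (ε * n) ∧ (∀ a, ‖φ a‖ ≤ ‖a‖) ∧ (∀ b, ‖ψ b‖ ≤ ‖b‖) ∧
      ∑ h ∈ range n, ‖ψ (φ ((T^[h]) x)) - π ((T^[h]) x)‖ ≤ ε * n

/-- the mean over the scales -/
noncomputable def SMn (X : ℕ) (φ : ℕ → ℝ) : ℝ := (∑ N ∈ Icc 1 X, (1 / (N : ℝ)) * φ N) / ∑ N ∈ Icc 1 X, 1 / (N : ℝ)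

lemma SMn_le {X : ℕ} (hX : 1 ≤ X) {φ : ℕ → ℝ} {P : ℕ → Prop} {a b ε : ℝ} (hb : 0 ≤ b) (ha : 0 ≤ a)
    (h1 : ∀ N, 1 ≤ N → ¬ P N → φ N ≤ a) (h2 : ∀ N, 1 ≤ N → φ N ≤ b) (h3 : LM X P ≤ ε) :
    SMn X φ ≤ a + b * ε := by
  classical
  have hH := H_pos hX
  unfold LM at h3
  rw [div_le_iff₀ hH] at h3
  unfold SMn
  rw [div_le_iff₀ hH]
  calc ∑ N ∈ Icc 1 X, (1 / (N : ℝ)) * φ N
      ≤ ∑ N ∈ Icc 1 X, (a * (1 / (N : ℝ)) + b * if P N then 1 / (N : ℝ) else 0) := by
        refine sum_le_sum fun N hN => ?_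
        have hN1 := (mem_Icc.1 hN).1
        have hN0 : (0 : ℝ) ≤ 1 / (N : ℝ) := by positivity
        split_ifs with h
        · have := h2 N hN1
          nlinarith
        · have := h1 N hN1 h
          nlinarith
    _ = a * ∑ N ∈ Icc 1 X, 1 / (N : ℝ) + b * ∑ N ∈ Icc 1 X, (if P N then 1 / (N : ℝ) else 0) := by
        rw [sum_add_distrib, mul_sum, mul_sum]
    _ ≤ a * ∑ N ∈ Icc 1 X, 1 / (N : ℝ) + b * (ε * ∑ N ∈ Icc 1 X, 1 / (N : ℝ)) :=
        add_le_add le_rfl (mul_le_mul_of_nonneg_left (by convert h3) hb)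
    _ = _ := by ring

/-- one window -/
lemma window {X Y : Type*} [NormedAddCommGroup X] [NormedSpace ℂ X] [NormedAddCommGroup Y]
    [NormedSpace ℂ Y] (T : X →L[ℂ] X) (hT : ‖T‖ ≤ 1) (p : X →ₗᵢ[ℂ] Y) (x : X) (K : ℝ) (hxK : ‖x‖ ≤ K)
    {n n' R k : ℕ} (hR : 1 ≤ R) (hn : R * n' ≤ n) (hn2 : n ≤ R * n' + R) (φ : X →ₗ[ℂ] Mk k)
    (ψ : Mk k →ₗ[ℂ] Y) (hψ : ∀ b, ‖ψ b‖ ≤ ‖b‖) (F : ℕ → ℂ) (hF : ∀ m, ‖F m‖ ≤ 1) (m : ℕ) :
    ‖∑ h ∈ range n, F (m + h) • (T^[h]) x‖ ≤
      ∑ r ∈ range R, ‖∑ i : Fin n', F (m + r + R * (i : ℕ)) • φ ((T^[r + R * (i : ℕ)]) x)‖ +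
      ∑ h ∈ range n, ‖ψ (φ ((T^[h]) x)) - p ((T^[h]) x)‖ + R * K := by
  have hK0 : 0 ≤ K := (norm_nonneg _).trans hxK
  have e1 : ∑ h ∈ range n, F (m + h) • (T^[h]) x = ∑ h ∈ range (R * n'), F (m + h) • (T^[h]) x +
      ∑ h ∈ Ico (R * n') n, F (m + h) • (T^[h]) x := by
    rw [sum_range_add_sum_Ico _ hn]
  have e2 : ‖∑ h ∈ Ico (R * n') n, F (m + h) • (T^[h]) x‖ ≤ R * K := by
    refine (norm_sum_le _ _).trans ?_
    calc ∑ h ∈ Ico (R * n') n, ‖F (m + h) • (T^[h]) x‖ ≤ ∑ h ∈ Ico (R * n') n, K := by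
          refine sum_le_sum fun h _ => ?_
          rw [norm_smul]
          calc ‖F (m + h)‖ * ‖(T^[h]) x‖ ≤ 1 * K :=
                mul_le_mul (hF _) ((iter_le hT h x).trans hxK) (norm_nonneg _) zero_le_one
            _ = K := one_mul _
      _ = (n - R * n' : ℕ) * K := by rw [sum_const, Nat.card_Ico, nsmul_eq_mul]
      _ ≤ R * K := mul_le_mul_of_nonneg_right (by exact_mod_cast (by omega)) hK0
  have e3 : ‖∑ h ∈ range (R * n'), F (m + h) • (T^[h]) x‖ ≤
      ∑ r ∈ range R, ‖∑ i : Fin n', F (m + r + R * (i : ℕ)) • φ ((T^[r + R * (i : ℕ)]) x)‖ +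
      ∑ h ∈ range (R * n'), ‖ψ (φ ((T^[h]) x)) - p ((T^[h]) x)‖ := by
    have f1 : ‖∑ h ∈ range (R * n'), F (m + h) • (T^[h]) x‖ =
        ‖∑ h ∈ range (R * n'), F (m + h) • p ((T^[h]) x)‖ := by
      rw [← p.norm_map, map_sum]
      congr 1
      exact sum_congr rfl fun i _ => map_smul p _ _
    have f2 : ∑ h ∈ range (R * n'), F (m + h) • p ((T^[h]) x) =
        ψ (∑ h ∈ range (R * n'), F (m + h) • φ ((T^[h]) x)) -
        ∑ h ∈ range (R * n'), F (m + h) • (ψ (φ ((T^[h]) x)) - p ((T^[h]) x)) := by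
      rw [map_sum, ← sum_sub_distrib]
      refine sum_congr rfl fun i _ => ?_
      rw [map_smul, smul_sub, sub_sub_cancel]
    have f3 : ∑ h ∈ range (R * n'), F (m + h) • φ ((T^[h]) x) =
        ∑ r ∈ range R, ∑ i : Fin n', F (m + r + R * (i : ℕ)) • φ ((T^[r + R * (i : ℕ)]) x) := by
      have g1 : ∀ r : ℕ, ∑ i : Fin n', F (m + r + R * (i : ℕ)) • φ ((T^[r + R * (i : ℕ)]) x) =
          ∑ i ∈ range n', F (m + (r + R * i)) • φ ((T^[r + R * i]) x) := by
        intro r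
        rw [Finset.sum_range]
        refine sum_congr rfl fun i _ => ?_
        rw [add_assoc]
      simp only [g1]
      rw [← sum_product', ← Finset.sum_bij' (s := range R ×ˢ range n') (t := range (R * n'))
        (fun q _ => q.1 + R * q.2) (fun h _ => (h % R, h / R))
        (f := fun q => F (m + (q.1 + R * q.2)) • φ ((T^[q.1 + R * q.2]) x))
        (g := fun h => F (m + h) • φ ((T^[h]) x))]
      · intro q hq
        rw [mem_product, mem_range, mem_range] at hq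
        rw [mem_range]
        have h1 : R * (q.2 + 1) ≤ R * n' := Nat.mul_le_mul_left _ hq.2
        rw [mul_add, mul_one] at h1
        omega
      · intro h hh
        rw [mem_range] at hh
        rw [mem_product, mem_range, mem_range]
        exact ⟨Nat.mod_lt _ hR, Nat.div_lt_of_lt_mul hh⟩
      · intro q hq
        rw [mem_product, mem_range, mem_range] at hq
        have h1 : (q.1 + R * q.2) % R = q.1 := by
          rw [Nat.add_mul_mod_self_left, Nat.mod_eq_of_lt hq.1]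
        have h2 : (q.1 + R * q.2) / R = q.2 := by
          rw [Nat.add_mul_div_left _ _ (by omega), Nat.div_eq_of_lt hq.1, zero_add]
        exact Prod.ext h1 h2
      · intro h _
        exact Nat.mod_add_div h R
      · intro q _
        rfl
    rw [f1, f2]
    refine (norm_sub_le _ _).trans (add_le_add ((hψ _).trans ?_) ?_)
    · rw [f3]
      exact norm_sum_le _ _
    · refine (norm_sum_le _ _).trans (sum_le_sum fun i _ => ?_)
      rw [norm_smul]
      exact mul_le_of_le_one_left (norm_nonneg _) (hF _)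
  have e4 : ∑ h ∈ range (R * n'), ‖ψ (φ ((T^[h]) x)) - p ((T^[h]) x)‖ ≤
      ∑ h ∈ range n, ‖ψ (φ ((T^[h]) x)) - p ((T^[h]) x)‖ :=
    sum_le_sum_of_subset_of_nonneg (range_mono hn) fun _ _ _ => norm_nonneg _
  rw [e1]
  refine (norm_add_le _ _).trans ?_
  linarith

lemma sum_shift_nonneg (g : ℕ → ℝ) (b : ℝ) (hg : ∀ m, g m ≤ b) (hg0 : ∀ m, 0 ≤ g m) (N r : ℕ) :
    ∑ m ∈ Icc 1 N, g (m + r) ≤ ∑ m ∈ Icc 1 N, g m + r * b := by
  induction r with
  | zero => simp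
  | succ r ih =>
    have e1 : ∑ m ∈ Icc 1 N, g (m + (r + 1)) = ∑ m ∈ Icc 1 N, (fun m => g (m + r)) (m + 1) :=
      sum_congr rfl fun m _ => by
        show g (m + (r + 1)) = g (m + 1 + r)
        congr 1
        omega
    have e2 := shift_one (fun m => g (m + r)) N
    rw [e1, e2]
    have h1 := hg (N + 1 + r)
    have h2 := hg0 (1 + r)
    push_cast
    linarith

lemma sum_rng {E : Type*} [AddCommMonoid E] (g : ℕ → E) (N : ℕ) :
    ∑ j ∈ range N, g (j + 1) = ∑ m ∈ Icc 1 N, g m := by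
  induction N with
  | zero => simp
  | succ N ih =>
    rw [sum_range_succ, ih, ← insert_Icc_right_eq_Icc_add_one (by omega), sum_insert (by simp), add_comm]

/-- all contractions with slow orbits -/
theorem contr (f : ℕ → ℂ) (hf : BM f) (hE : EllU f) {X Y : Type*} [NormedAddCommGroup X]
    [NormedSpace ℂ X] [NormedAddCommGroup Y] [NormedSpace ℂ Y] (T : X →L[ℂ] X) (hT : ‖T‖ ≤ 1)
    (p : X →ₗᵢ[ℂ] Y) (x : X) (hx : Slow p T x) (k : ℕ) (h : Fin (k + 1) → ℤ)
    (hh : Function.Injective h) (ε : ℝ) (hε : 0 < ε) :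
    ∃ X₀ : ℕ, ∀ M : ℕ, X₀ ≤ M → ∀ g : Fin k → ℕ → ℂ, (∀ j, BM (g j)) →
      SMn M (fun N => ‖(1 / (N : ℂ)) • ∑ n ∈ Icc 1 N, cor h f g n • (T^[n]) x‖) ≤ ε := by
  classical
  obtain ⟨R, hR1, hR⟩ : ∃ R : ℕ, 1 ≤ R ∧ ∀ i j, |h i - h j| < R := by
    refine ⟨1 + ∑ i, ∑ j, (h i - h j).natAbs, by omega, fun i j => ?_⟩
    have h1 : (h i - h j).natAbs ≤ ∑ j, (h i - h j).natAbs :=
      single_le_sum (f := fun j => (h i - h j).natAbs) (fun _ _ => Nat.zero_le _) (mem_univ j)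
    have h2 : ∑ j, (h i - h j).natAbs ≤ ∑ i, ∑ j, (h i - h j).natAbs :=
      single_le_sum (f := fun i => ∑ j, (h i - h j).natAbs) (fun _ _ => Nat.zero_le _) (mem_univ i)
    rw [← Int.natCast_natAbs]
    exact_mod_cast (by omega)
  have hR0 : (0 : ℝ) < R := by exact_mod_cast hR1
  obtain ⟨K, hK⟩ : ∃ K : ℝ, K = ‖x‖ + 1 := ⟨_, rfl⟩
  have hK0 : 0 < K := by rw [hK]; positivity
  have hxK : ‖x‖ ≤ K := by rw [hK]; linarith
  obtain ⟨δ, hδ, n0, hn01, hwin⟩ := win_at K (ε / 16) hK0 (by positivity)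
  obtain ⟨ε1, hε1⟩ : ∃ ε1 : ℝ, ε1 = min (δ / (2 * R)) (ε / 16) := ⟨_, rfl⟩
  have hε10 : 0 < ε1 := by rw [hε1]; exact lt_min (by positivity) (by positivity)
  obtain ⟨n1, hn1⟩ : ∃ n1 : ℕ, 16 * R * K / ε ≤ n1 := exists_nat_ge _
  obtain ⟨n, ⟨k', φ, ψ, hk, hφ, hψ, happ⟩, hn⟩ :=
    ((hx ε1 hε10).and_eventually (eventually_ge_atTop (R * (n0 + 1) + n1 + 1))).exists
  obtain ⟨n', hn'⟩ : ∃ n' : ℕ, n' = n / R := ⟨_, rfl⟩
  have hn'1 : n0 + 1 ≤ n' := by
    rw [hn', Nat.le_div_iff_mul_le hR1, mul_comm]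
    omega
  have hRn : R * n' ≤ n := by rw [hn']; exact Nat.mul_div_le n R
  have hRn2 : n ≤ R * n' + R := by
    have := Nat.lt_mul_div_succ n hR1
    rw [← hn', mul_add, mul_one] at this
    exact this.le
  have hnpos : (0 : ℝ) < n := by exact_mod_cast (by omega : 0 < n)
  have hn'pos : (0 : ℝ) < n' := by exact_mod_cast (by omega : 0 < n')
  have hkk : (k' : ℝ) ≤ Real.exp (δ * n') := by
    refine hk.trans (Real.exp_le_exp.2 ?_)
    have h1 : (n : ℝ) ≤ 2 * R * n' := by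
      have h2 : n ≤ 2 * R * n' := by
        have : R ≤ R * n' := Nat.le_mul_of_pos_right R (by omega)
        calc n ≤ R * n' + R := hRn2
          _ ≤ R * n' + R * n' := by omega
          _ = 2 * R * n' := by ring
      exact_mod_cast h2
    calc ε1 * n ≤ δ / (2 * R) * (2 * R * n') :=
          mul_le_mul (by rw [hε1]; exact min_le_left _ _) h1 hnpos.le (by positivity)
      _ = δ * n' := by field_simp
  have hRK : R * K ≤ ε / 16 * n := by
    have h1 : 16 * R * K / ε ≤ n := hn1.trans (by exact_mod_cast (by omega : n1 ≤ n))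
    rw [div_le_iff₀ hε] at h1
    linarith
  obtain ⟨q, hq, κ, hκ, hw⟩ := hwin n' (by omega)
  obtain ⟨X₁, hX₁⟩ := goodAt f hf hE k n' R (2 * q) (by omega) h hh hR κ (ε / (4 * K)) hκ (by positivity)
  obtain ⟨N₀, hN₀⟩ : ∃ N₀ : ℕ, 16 * (n + R * R) * K / ε ≤ N₀ := exists_nat_ge _
  obtain ⟨X₂, hX₂⟩ := LM_small (N₀ + 1) (ε / (4 * K)) (by positivity)
  refine ⟨X₁ + X₂ + 1, fun M hM g hg => ?_⟩
  have hF : ∀ m, ‖cor h f g m‖ ≤ 1 := norm_cor_le h f g hf.1 (fun j => (hg j).1)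
  have hy : ∀ m, ‖cor h f g m • (T^[m]) x‖ ≤ K := by
    intro m
    rw [norm_smul]
    calc ‖cor h f g m‖ * ‖(T^[m]) x‖ ≤ 1 * K :=
          mul_le_mul (hF _) ((iter_le hT m x).trans hxK) (norm_nonneg _) zero_le_one
      _ = K := one_mul _
  have hbad : LM M (fun N => ¬ GoodAt (cor h f g) N n' R (2 * q) κ ∨ N < N₀ + 1) ≤ ε / (2 * K) := by
    refine (LM_or M _ _).trans ?_
    have h1 := hX₁ M (by omega) g hg
    have h2 := hX₂ M (by omega)
    have : ε / (2 * K) = ε / (4 * K) + ε / (4 * K) := by field_simp; ring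
    rw [this]
    exact add_le_add h1 h2
  refine (SMn_le (a := ε / 2) (b := K) (by omega) hK0.le (by positivity) (fun N hN hgood => ?_)
    (fun N hN => ?_) hbad).trans (le_of_eq (by field_simp; ring))
  · push Not at hgood
    obtain ⟨hG, hNN⟩ := hgood
    have hN0 : (0 : ℝ) < N := by exact_mod_cast hN
    -- blocks
    have b1 := block_avg (fun j => cor h f g (j + 1) • (T^[j + 1]) x) K (fun j => hy _) N n
    have b2 : ∑ j ∈ range N, cor h f g (j + 1) • (T^[j + 1]) x = ∑ m ∈ Icc 1 N, cor h f g m • (T^[m]) x :=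
      sum_rng (fun m => cor h f g m • (T^[m]) x) N
    have b3 : ∀ j, ‖∑ i ∈ range n, cor h f g (j + i + 1) • (T^[j + i + 1]) x‖ ≤
        ‖∑ i ∈ range n, cor h f g (j + 1 + i) • (T^[i]) x‖ := by
      intro j
      have c1 := iter_sum T (j + 1) n (fun i => cor h f g (j + 1 + i)) x
      have c2 : ∑ i ∈ range n, cor h f g (j + i + 1) • (T^[j + i + 1]) x =
          ∑ i ∈ range n, cor h f g (j + 1 + i) • (T^[j + 1 + i]) x :=
        sum_congr rfl fun i _ => by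
          have : j + i + 1 = j + 1 + i := by omega
          rw [this]
      rw [c2, c1]
      exact iter_le hT _ _
    have b4 : ∑ j ∈ range N, ‖∑ i ∈ range n, cor h f g (j + 1 + i) • (T^[i]) x‖ =
        ∑ m ∈ Icc 1 N, ‖∑ i ∈ range n, cor h f g (m + i) • (T^[i]) x‖ :=
      sum_rng (fun m => ‖∑ i ∈ range n, cor h f g (m + i) • (T^[i]) x‖) N
    rw [b2] at b1
    have b5 : n * ‖∑ m ∈ Icc 1 N, cor h f g m • (T^[m]) x‖ ≤
        ∑ m ∈ Icc 1 N, ‖∑ i ∈ range n, cor h f g (m + i) • (T^[i]) x‖ + n * n * K := by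
      rw [← b4]
      exact b1.trans (add_le_add (sum_le_sum fun j _ => b3 j) le_rfl)
    have b6 : ∀ r ∈ range R, ∑ m ∈ Icc 1 N,
        ‖∑ i : Fin n', cor h f g (m + r + R * (i : ℕ)) • φ ((T^[r + R * (i : ℕ)]) x)‖ ≤
        ε / 16 * n' * N + R * (n' * K) := by
      intro r hr
      have hA : ∀ i : Fin n', ‖φ ((T^[r + R * (i : ℕ)]) x)‖ ≤ K := fun i =>
        (hφ _).trans ((iter_le hT _ _).trans hxK)
      have c1 := hw (cor h f g) N R hF hG k' (fun i => φ ((T^[r + R * (i : ℕ)]) x)) hkk hA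
      have c2 := sum_shift_nonneg
        (fun m => ‖∑ i : Fin n', cor h f g (m + R * (i : ℕ)) • φ ((T^[r + R * (i : ℕ)]) x)‖) (n' * K)
        (fun m => by
          refine (norm_sum_le _ _).trans ?_
          calc ∑ i : Fin n', ‖cor h f g (m + R * (i : ℕ)) • φ ((T^[r + R * (i : ℕ)]) x)‖
              ≤ ∑ _i : Fin n', K := by
                refine sum_le_sum fun i _ => ?_
                rw [norm_smul]
                calc _ ≤ 1 * K := mul_le_mul (hF _) (hA i) (norm_nonneg _) zero_le_one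
                  _ = K := one_mul _
            _ = n' * K := by simp) (fun m => norm_nonneg _) N r
      have c3 : (r : ℝ) * (n' * K) ≤ R * (n' * K) :=
        mul_le_mul_of_nonneg_right (by exact_mod_cast (mem_range.1 hr).le) (by positivity)
      exact c2.trans (add_le_add c1 c3)
    have b7 : ∑ m ∈ Icc 1 N, ‖∑ i ∈ range n, cor h f g (m + i) • (T^[i]) x‖ ≤
        ε / 4 * n * N + R * (R * (n' * K)) := by
      calc ∑ m ∈ Icc 1 N, ‖∑ i ∈ range n, cor h f g (m + i) • (T^[i]) x‖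
          ≤ ∑ m ∈ Icc 1 N, (∑ r ∈ range R,
              ‖∑ i : Fin n', cor h f g (m + r + R * (i : ℕ)) • φ ((T^[r + R * (i : ℕ)]) x)‖ +
              ∑ h ∈ range n, ‖ψ (φ ((T^[h]) x)) - p ((T^[h]) x)‖ + R * K) :=
            sum_le_sum fun m _ => window T hT p x K hxK hR1 hRn hRn2 φ ψ hψ (cor h f g) hF m
        _ = ∑ r ∈ range R, ∑ m ∈ Icc 1 N,
              ‖∑ i : Fin n', cor h f g (m + r + R * (i : ℕ)) • φ ((T^[r + R * (i : ℕ)]) x)‖ +
              N * (∑ h ∈ range n, ‖ψ (φ ((T^[h]) x)) - p ((T^[h]) x)‖ + R * K) := by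
            simp only [add_assoc]
            rw [sum_add_distrib, sum_comm, sum_const, Nat.card_Icc, Nat.add_sub_cancel, nsmul_eq_mul]
        _ ≤ ∑ r ∈ range R, (ε / 16 * n' * N + R * (n' * K)) + N * (ε1 * n + ε / 16 * n) :=
            add_le_add (sum_le_sum b6) (mul_le_mul_of_nonneg_left (add_le_add happ hRK) hN0.le)
        _ = ε / 16 * (R * n') * N + R * (R * (n' * K)) + N * (ε1 * n + ε / 16 * n) := by
            rw [sum_const, card_range, nsmul_eq_mul]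
            ring
        _ ≤ ε / 16 * n * N + R * (R * (n' * K)) + N * (ε / 16 * n + ε / 16 * n) := by
            have c1 : (R : ℝ) * n' ≤ n := by exact_mod_cast hRn
            have c2 : ε1 ≤ ε / 16 := by rw [hε1]; exact min_le_right _ _
            gcongr
        _ ≤ _ := by nlinarith [mul_pos (mul_pos hε hnpos) hN0]
    have b8 : n * ‖∑ m ∈ Icc 1 N, cor h f g m • (T^[m]) x‖ ≤ ε / 2 * n * N := by
      refine b5.trans ?_
      have c1 : 16 * (n + R * R) * K ≤ ε * N := by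
        have c2 : 16 * (n + R * R) * K / ε ≤ N := hN₀.trans (by exact_mod_cast (by omega : N₀ ≤ N))
        rw [div_le_iff₀ hε] at c2
        linarith
      have c3 : (n' : ℝ) ≤ n := by
        have : n' ≤ n := by rw [hn']; exact Nat.div_le_self _ _
        exact_mod_cast this
      have c4 : (R : ℝ) * (R * (n' * K)) + n * n * K ≤ ε / 16 * n * N := by
        calc (R : ℝ) * (R * (n' * K)) + n * n * K ≤ R * (R * (n * K)) + n * n * K := by gcongr
          _ = n * ((n + R * R) * K) := by ring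
          _ ≤ n * (ε / 16 * N) := mul_le_mul_of_nonneg_left (by linarith) hnpos.le
          _ = _ := by ring
      have c5 : 0 < ε * n * N := by positivity
      nlinarith
    rw [norm_smul, norm_div, norm_one, Complex.norm_natCast, one_div_mul_eq_div, div_le_iff₀ hN0]
    have b9 : (n : ℝ) * ‖∑ m ∈ Icc 1 N, cor h f g m • (T^[m]) x‖ ≤ n * (ε / 2 * N) := by linarith
    exact le_of_mul_le_mul_left b9 hnpos
  · have hN0 : (0 : ℝ) < N := by exact_mod_cast hN
    rw [norm_smul, norm_div, norm_one, Complex.norm_natCast, one_div_mul_eq_div, div_le_iff₀ hN0]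
    refine (norm_sum_le _ _).trans ((sum_le_sum fun m _ => hy m).trans ?_)
    rw [sum_const, Nat.card_Icc, Nat.add_sub_cancel, nsmul_eq_mul, mul_comm]

end Pool.Agent.Q270.ED
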