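import Pool.Agent.Q270.ED.Pw
import Pool.Agent.Q163.ND.Win

/-!
Project ED (helper270): sums of matrices with multiplicative coefficients.
-/

set_option autoImplicit false

namespace Pool.Agent.Q270.ED

open Finset Filter Pool.Agent.Q270.EA Pool.Agent.Q270.EB Pool.Agent.Q270.EC
open Pool.Agent.Q163.ND (ct Mk corr moments le_one_add_pow two_pow_near)

/-- `z` or its conjugate -/
noncomputable def ob (b : Bool) (z : ℂ) : ℂ := z ^ (if b then 1 else 0) * starRingEnd ℂ z ^ (if b then 0 else 1)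

noncomputable def cfb (θ : ℂ) (b : Bool) : ℂ := if b then θ / 2 else starRingEnd ℂ θ / 2

lemma re_ob (θ z : ℂ) : (((θ * z).re : ℝ) : ℂ) = ∑ b : Bool, cfb θ b * ob b z := by
  rw [Complex.re_eq_add_conj, Fintype.sum_bool]
  simp only [cfb, ob, map_mul]
  simp
  ring

lemma cfb_le {θ : ℂ} (hθ : ‖θ‖ ≤ 1) (b : Bool) : ‖cfb θ b‖ ≤ 1 / 2 := by
  unfold cfb
  split_ifs
  · rw [norm_div]
    norm_num
    linarith
  · rw [norm_div, RCLike.norm_conj]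
    norm_num
    linarith

lemma corr_good {F : ℕ → ℂ} {N n R q : ℕ} {κ : ℝ} (hG : GoodAt F N n R (2 * q) κ) {θ : ℂ} (hθ : ‖θ‖ ≤ 1)
    (w w' : Fin q → Fin n) (ht : (w, w') ∉ NoOne n q) :
    |∑ m ∈ Icc 1 N, (∏ i, (θ * F (m + R * (w i : ℕ))).re) * ∏ i, (θ * F (m + R * (w' i : ℕ))).re| ≤
      κ * N := by
  classical
  obtain ⟨W, hW⟩ : ∃ W : Fin q ⊕ Fin q → Fin n, W = Sum.elim w w' := ⟨_, rfl⟩
  obtain ⟨A, hA⟩ : ∃ A : (Fin q ⊕ Fin q → Bool) → Fin n → ℕ,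
      A = fun τ h => ∑ i ∈ univ.filter (fun i => W i = h), if τ i then 1 else 0 := ⟨_, rfl⟩
  obtain ⟨B, hB⟩ : ∃ B : (Fin q ⊕ Fin q → Bool) → Fin n → ℕ,
      B = fun τ h => ∑ i ∈ univ.filter (fun i => W i = h), if τ i then 0 else 1 := ⟨_, rfl⟩
  have hAB : ∀ τ h, A τ h + B τ h = ct w w' h := by
    intro τ h
    rw [hA, hB]
    dsimp only
    rw [← sum_add_distrib]
    have h1 : ∀ i ∈ univ.filter (fun i => W i = h), ((if τ i then 1 else 0) + if τ i then 0 else 1) = 1 := by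
      intro i _
      split_ifs <;> rfl
    rw [sum_congr rfl h1, sum_const, smul_eq_mul, mul_one]
    unfold ct
    simp only [card_filter, Fintype.sum_sum_type, hW, Sum.elim_inl, Sum.elim_inr]
    congr!
  have hcard : Fintype.card (Fin q ⊕ Fin q) = 2 * q := by
    rw [Fintype.card_sum, Fintype.card_fin]
    ring
  have hct : ∀ h, ct w w' h ≤ 2 * q := by
    intro h
    unfold ct
    have h1 := card_le_univ (univ.filter fun i => w i = h)
    have h2 := card_le_univ (univ.filter fun i => w' i = h)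
    rw [Fintype.card_fin] at h1 h2
    omega
  have hA1 : ∀ τ h, A τ h < 2 * q + 1 := fun τ h => by
    have := hAB τ h
    have := hct h
    omega
  have hB1 : ∀ τ h, B τ h < 2 * q + 1 := fun τ h => by
    have := hAB τ h
    have := hct h
    omega
  obtain ⟨h₀, hh₀⟩ : ∃ h, ct w w' h = 1 := by
    by_contra hcon
    push Not at hcon
    apply ht
    unfold NoOne
    rw [mem_filter]
    exact ⟨mem_univ _, hcon⟩
  have e1 : ∀ m : ℕ, ((((∏ i, (θ * F (m + R * (w i : ℕ))).re) *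
      ∏ i, (θ * F (m + R * (w' i : ℕ))).re : ℝ)) : ℂ) =
      ∑ τ : Fin q ⊕ Fin q → Bool, (∏ i, cfb θ (τ i)) * ∏ h : Fin n, pw (A τ h, B τ h) (F (m + R * h)) := by
    intro m
    have e2 : (((∏ i, (θ * F (m + R * (w i : ℕ))).re) *
      ∏ i, (θ * F (m + R * (w' i : ℕ))).re : ℝ)) = ∏ i, (θ * F (m + R * (W i : ℕ))).re := by
      rw [Fintype.prod_sum_type, hW]
      rfl
    rw [e2, Complex.ofReal_prod, prod_congr rfl fun i _ => re_ob θ _, prod_univ_sum,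
      Fintype.piFinset_univ]
    refine sum_congr rfl fun τ _ => ?_
    rw [prod_mul_distrib]
    congr 1
    rw [← Finset.prod_fiberwise_of_maps_to (s := univ) (t := univ) (g := W) (fun _ _ => mem_univ _)]
    refine prod_congr rfl fun h _ => ?_
    rw [prod_congr rfl (g := fun i => ob (τ i) (F (m + R * (h : ℕ)))) (fun i hi => by
      rw [(mem_filter.1 hi).2])]
    unfold ob pw
    rw [prod_mul_distrib, prod_pow_eq_pow_sum, prod_pow_eq_pow_sum, hA, hB]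
  have e3 : ((∑ m ∈ Icc 1 N, (∏ i, (θ * F (m + R * (w i : ℕ))).re) *
      ∏ i, (θ * F (m + R * (w' i : ℕ))).re : ℝ) : ℂ) = ∑ τ : Fin q ⊕ Fin q → Bool,
      (∏ i, cfb θ (τ i)) * ∑ m ∈ Icc 1 N, ∏ h : Fin n, pw (A τ h, B τ h) (F (m + R * h)) := by
    rw [Complex.ofReal_sum, sum_congr rfl fun m _ => e1 m, sum_comm]
    exact sum_congr rfl fun τ _ => (mul_sum _ _ _).symm
  have e4 : |∑ m ∈ Icc 1 N, (∏ i, (θ * F (m + R * (w i : ℕ))).re) *
      ∏ i, (θ * F (m + R * (w' i : ℕ))).re| = ‖((∑ m ∈ Icc 1 N, (∏ i, (θ * F (m + R * (w i : ℕ))).re) *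
      ∏ i, (θ * F (m + R * (w' i : ℕ))).re : ℝ) : ℂ)‖ := by
    rw [Complex.norm_real, Real.norm_eq_abs]
  rw [e4, e3]
  refine (norm_sum_le _ _).trans ?_
  have e5 : ∀ τ : Fin q ⊕ Fin q → Bool, ‖(∏ i, cfb θ (τ i)) *
      ∑ m ∈ Icc 1 N, ∏ h : Fin n, pw (A τ h, B τ h) (F (m + R * h))‖ ≤ (1 / 2) ^ (2 * q) * (κ * N) := by
    intro τ
    rw [norm_mul]
    refine mul_le_mul ?_ ?_ (norm_nonneg _) (by positivity)
    · rw [norm_prod]
      calc ∏ i, ‖cfb θ (τ i)‖ ≤ ∏ _i : Fin q ⊕ Fin q, (1 / 2 : ℝ) :=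
            prod_le_prod (fun _ _ => norm_nonneg _) fun i _ => cfb_le hθ _
        _ = (1 / 2) ^ (2 * q) := by rw [prod_const, card_univ, hcard]
    · rcases Nat.eq_zero_or_pos N with hN | hN
      · subst hN
        simp
      have hN0 : (0 : ℝ) < N := by exact_mod_cast hN
      have h1 := hG (fun h => (⟨A τ h, hA1 τ h⟩, ⟨B τ h, hB1 τ h⟩)) ⟨h₀, by
        have h2 := hAB τ h₀
        rw [hh₀] at h2
        dsimp only
        omega⟩
      dsimp only at h1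
      unfold AvN at h1
      rw [norm_mul, norm_div, norm_one, Complex.norm_natCast, one_div_mul_eq_div, div_le_iff₀ hN0] at h1
      exact h1
  refine (sum_le_sum fun τ _ => e5 τ).trans ?_
  rw [sum_const, card_univ, Fintype.card_fun, hcard, Fintype.card_bool, nsmul_eq_mul, ← mul_assoc]
  push_cast
  rw [← mul_pow]
  norm_num

lemma corr_le' {F : ℕ → ℂ} {N n R q : ℕ} {κ : ℝ} (hF : ∀ m, ‖F m‖ ≤ 1)
    (hG : GoodAt F N n R (2 * q) κ) {θ : ℂ} (hθ : ‖θ‖ ≤ 1)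
    (hκ : κ * (Fintype.card ((Fin q → Fin n) × (Fin q → Fin n)) : ℝ) ≤ 1) (hκ0 : 0 ≤ κ) :
    corr (Icc 1 N) (fun m (h : Fin n) => (θ * F (m + R * (h : ℕ))).re) q ≤
      N * ((NoOne n q).card + 1) := by
  classical
  have hr : ∀ m, |(θ * F m).re| ≤ 1 := by
    intro m
    refine (Complex.abs_re_le_norm _).trans ?_
    rw [norm_mul]
    exact mul_le_one₀ hθ (norm_nonneg _) (hF m)
  unfold corr
  have e1 : ∑ w : Fin q → Fin n, ∑ w' : Fin q → Fin n,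
      |∑ m ∈ Icc 1 N, (∏ i, (θ * F (m + R * (w i : ℕ))).re) * ∏ i, (θ * F (m + R * (w' i : ℕ))).re| =
      ∑ t : (Fin q → Fin n) × (Fin q → Fin n),
        |∑ m ∈ Icc 1 N, (∏ i, (θ * F (m + R * (t.1 i : ℕ))).re) * ∏ i, (θ * F (m + R * (t.2 i : ℕ))).re| := by
    rw [Fintype.sum_prod_type]
  rw [e1]
  have e2 : ∀ t : (Fin q → Fin n) × (Fin q → Fin n),
      |∑ m ∈ Icc 1 N, (∏ i, (θ * F (m + R * (t.1 i : ℕ))).re) * ∏ i, (θ * F (m + R * (t.2 i : ℕ))).re| ≤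
        (if t ∈ NoOne n q then (N : ℝ) else 0) + κ * N := by
    intro t
    have hκN : 0 ≤ κ * N := mul_nonneg hκ0 (Nat.cast_nonneg _)
    by_cases ht : t ∈ NoOne n q
    · rw [if_pos ht]
      refine le_trans ?_ (le_add_of_nonneg_right hκN)
      refine (abs_sum_le_sum_abs _ _).trans ?_
      refine (sum_le_sum (g := fun _ => (1 : ℝ)) fun m _ => ?_).trans ?_
      · rw [abs_mul, abs_prod, abs_prod]
        exact mul_le_one₀ (prod_le_one (fun _ _ => abs_nonneg _) fun i _ => hr _)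
          (prod_nonneg fun _ _ => abs_nonneg _) (prod_le_one (fun _ _ => abs_nonneg _) fun i _ => hr _)
      · simp
    · rw [if_neg ht, zero_add]
      exact corr_good hG hθ t.1 t.2 ht
  refine (sum_le_sum fun t _ => e2 t).trans ?_
  rw [sum_add_distrib, ← sum_filter, sum_const, sum_const, nsmul_eq_mul, nsmul_eq_mul, card_univ,
    filter_mem_eq_inter, univ_inter]
  have hN0 : (0 : ℝ) ≤ N := Nat.cast_nonneg _
  nlinarith

/-- self-adjoint matrices -/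
lemma win_sa (B η : ℝ) (hB : 0 < B) (hη : 0 < η) : ∃ δ : ℝ, 0 < δ ∧ ∃ n0 : ℕ, 1 ≤ n0 ∧ ∀ n : ℕ,
    n0 ≤ n → ∃ q : ℕ, 1 ≤ q ∧ ∃ κ : ℝ, 0 < κ ∧ ∀ (F : ℕ → ℂ) (N R : ℕ), (∀ m, ‖F m‖ ≤ 1) →
      GoodAt F N n R (2 * q) κ → ∀ (k : ℕ) (A : Fin n → Mk k), (k : ℝ) ≤ Real.exp (δ * n) →
        (∀ h, IsSelfAdjoint (A h)) → (∀ h, ‖A h‖ ≤ B) → ∀ θ : ℂ, ‖θ‖ ≤ 1 →
          ∑ m ∈ Icc 1 N, ‖∑ h : Fin n, (((θ * F (m + R * (h : ℕ))).re : ℝ) : ℂ) • A h‖ ≤ 2 * η * n * N := by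
  classical
  obtain ⟨c0, hc0⟩ : ∃ c0 : ℝ, c0 = η ^ 2 / (16 * Real.exp 1 ^ 2 * B ^ 2) := ⟨_, rfl⟩
  have hc0p : 0 < c0 := by rw [hc0]; positivity
  obtain ⟨n0, hn0⟩ := exists_nat_ge (8 / c0)
  refine ⟨c0 / 8, by positivity, n0 + 1, by omega, fun n hn => ?_⟩
  have hn1 : 1 ≤ n := by omega
  have hnR : (0 : ℝ) < n := by exact_mod_cast hn1
  have hn8 : 8 ≤ c0 * n := by
    have h1 : 8 / c0 ≤ n := hn0.trans (by exact_mod_cast (by omega : n0 ≤ n))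
    rw [div_le_iff₀ hc0p] at h1
    linarith
  obtain ⟨j, hj1, hj2⟩ := two_pow_near (by linarith : 1 ≤ c0 * n)
  obtain ⟨q, hq⟩ : ∃ q : ℕ, q = 2 ^ j := ⟨_, rfl⟩
  rw [← hq] at hj1 hj2
  have hq1 : 1 ≤ q := by rw [hq]; exact Nat.one_le_two_pow
  have hqR : (1 : ℝ) ≤ q := by exact_mod_cast hq1
  obtain ⟨κ, hκ⟩ : ∃ κ : ℝ, κ = 1 / ((Fintype.card ((Fin q → Fin n) × (Fin q → Fin n)) : ℝ) + 1) := ⟨_, rfl⟩
  have hκ0 : 0 < κ := by rw [hκ]; positivity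
  have hκ1 : κ * (Fintype.card ((Fin q → Fin n) × (Fin q → Fin n)) : ℝ) ≤ 1 := by
    rw [hκ, one_div_mul_eq_div, div_le_one (by positivity)]
    linarith
  refine ⟨q, hq1, κ, hκ0, fun F N R hF hG k A hkb hAs hAn θ hθ => ?_⟩
  obtain ⟨a0, ha0⟩ : ∃ a0 : ℝ, a0 = η * n := ⟨_, rfl⟩
  have ha0p : 0 < a0 := by rw [ha0]; positivity
  have hEv := noOne_le n q hn1 hq1
  have hbig : (1 : ℝ) ≤ (16 * q * n * Real.exp 1) ^ q := by
    refine one_le_pow₀ ?_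
    have h1 : (1 : ℝ) ≤ n := by exact_mod_cast hn1
    have h2 : (1 : ℝ) ≤ Real.exp 1 := Real.one_le_exp (by norm_num)
    have h3 : (1 : ℝ) ≤ 16 * q := by linarith
    calc (1 : ℝ) = 1 * 1 * 1 := by norm_num
      _ ≤ 16 * q * n * Real.exp 1 := by gcongr
  have hfin : Real.exp (c0 / 8 * n) * B ^ (2 * q) * ((NoOne n q).card + 1) ≤ a0 ^ (2 * q) := by
    have h1 : (NoOne n q).card + 1 ≤ 3 * (16 * q * n * Real.exp 1 : ℝ) ^ q := by linarith
    have h2 : (16 * q * n * Real.exp 1 * B ^ 2 : ℝ) ≤ a0 ^ 2 * Real.exp (-1) := by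
      have h3 : (16 * Real.exp 1 * B ^ 2 : ℝ) * q ≤ (16 * Real.exp 1 * B ^ 2) * (c0 * n) :=
        mul_le_mul_of_nonneg_left hj2 (by positivity)
      have h4 : (16 * Real.exp 1 * B ^ 2) * (c0 * n) = η ^ 2 * n * Real.exp (-1) := by
        rw [hc0, Real.exp_neg]
        field_simp
      calc (16 * q * n * Real.exp 1 * B ^ 2 : ℝ) = n * ((16 * Real.exp 1 * B ^ 2 : ℝ) * q) := by ring
        _ ≤ n * (η ^ 2 * n * Real.exp (-1)) := by
            rw [← h4]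
            exact mul_le_mul_of_nonneg_left h3 hnR.le
        _ = a0 ^ 2 * Real.exp (-1) := by rw [ha0]; ring
    have h5 : (16 * q * n * Real.exp 1 * B ^ 2 : ℝ) ^ q ≤ (a0 ^ 2) ^ q * Real.exp (-(q : ℝ)) := by
      calc (16 * q * n * Real.exp 1 * B ^ 2 : ℝ) ^ q ≤ (a0 ^ 2 * Real.exp (-1)) ^ q :=
            pow_le_pow_left₀ (by positivity) h2 q
        _ = (a0 ^ 2) ^ q * Real.exp (-(q : ℝ)) := by
            rw [mul_pow, ← Real.exp_nat_mul]
            congr 2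
            ring
    have h6 : 3 * Real.exp (c0 / 8 * n) * Real.exp (-(q : ℝ)) ≤ 1 := by
      have h7 : (3 : ℝ) ≤ Real.exp 2 := by
        have := Real.add_one_le_exp (2 : ℝ)
        linarith
      calc 3 * Real.exp (c0 / 8 * n) * Real.exp (-(q : ℝ))
          ≤ Real.exp 2 * Real.exp (c0 / 8 * n) * Real.exp (-(q : ℝ)) := by
            gcongr
        _ = Real.exp (2 + c0 / 8 * n + -(q : ℝ)) := by
            rw [Real.exp_add, Real.exp_add]
        _ ≤ 1 := Real.exp_le_one_iff.2 (by linarith)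
    calc Real.exp (c0 / 8 * n) * B ^ (2 * q) * ((NoOne n q).card + 1)
        ≤ Real.exp (c0 / 8 * n) * B ^ (2 * q) *
            (3 * (16 * q * n * Real.exp 1 : ℝ) ^ q) := by gcongr
      _ = 3 * Real.exp (c0 / 8 * n) * (16 * q * n * Real.exp 1 * B ^ 2 : ℝ) ^ q := by
          rw [mul_pow _ (B ^ 2), ← pow_mul]
          ring
      _ ≤ 3 * Real.exp (c0 / 8 * n) * ((a0 ^ 2) ^ q * Real.exp (-(q : ℝ))) := by gcongr
      _ = (3 * Real.exp (c0 / 8 * n) * Real.exp (-(q : ℝ))) * (a0 ^ 2) ^ q := by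
          ring
      _ ≤ 1 * (a0 ^ 2) ^ q := mul_le_mul_of_nonneg_right h6 (by positivity)
      _ = a0 ^ (2 * q) := by rw [one_mul, pow_mul]
  have hN0 : (0 : ℝ) ≤ N := Nat.cast_nonneg _
  have hcor := corr_le' hF hG hθ hκ1 hκ0.le
  have hmom : ∑ m ∈ Icc 1 N, ‖∑ h : Fin n, (((θ * F (m + R * (h : ℕ))).re : ℝ) : ℂ) • A h‖ ^ (2 * q) ≤
      k * B ^ (2 * q) * (N * ((NoOne n q).card + 1)) := by
    have h1 := moments (Icc 1 N) (fun m (h : Fin n) => (θ * F (m + R * (h : ℕ))).re) A hAs B hAn j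
    rw [← hq] at h1
    exact h1.trans (mul_le_mul_of_nonneg_left hcor (by positivity))
  have h1 : ∀ m : ℕ, ‖∑ h : Fin n, (((θ * F (m + R * (h : ℕ))).re : ℝ) : ℂ) • A h‖ ≤
      a0 + a0 / a0 ^ (2 * q) * ‖∑ h : Fin n, (((θ * F (m + R * (h : ℕ))).re : ℝ) : ℂ) • A h‖ ^ (2 * q) := by
    intro m
    obtain ⟨y, hy⟩ : ∃ y, y = ‖∑ h : Fin n, (((θ * F (m + R * (h : ℕ))).re : ℝ) : ℂ) • A h‖ := ⟨_, rfl⟩
    rw [← hy]
    have hy0 : 0 ≤ y := by rw [hy]; exact norm_nonneg _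
    have h2 := le_one_add_pow (div_nonneg hy0 ha0p.le) (by omega : 1 ≤ 2 * q)
    calc y = a0 * (y / a0) := by field_simp
      _ ≤ a0 * (1 + (y / a0) ^ (2 * q)) := mul_le_mul_of_nonneg_left h2 ha0p.le
      _ = a0 + a0 / a0 ^ (2 * q) * y ^ (2 * q) := by
          rw [div_pow]
          ring
  calc ∑ m ∈ Icc 1 N, ‖∑ h : Fin n, (((θ * F (m + R * (h : ℕ))).re : ℝ) : ℂ) • A h‖
      ≤ ∑ m ∈ Icc 1 N, (a0 + a0 / a0 ^ (2 * q) *
          ‖∑ h : Fin n, (((θ * F (m + R * (h : ℕ))).re : ℝ) : ℂ) • A h‖ ^ (2 * q)) :=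
        sum_le_sum fun m _ => h1 m
    _ = N * a0 + a0 / a0 ^ (2 * q) *
          ∑ m ∈ Icc 1 N, ‖∑ h : Fin n, (((θ * F (m + R * (h : ℕ))).re : ℝ) : ℂ) • A h‖ ^ (2 * q) := by
        rw [sum_add_distrib, sum_const, Nat.card_Icc, Nat.add_sub_cancel, nsmul_eq_mul, ← mul_sum]
    _ ≤ N * a0 + a0 / a0 ^ (2 * q) * (k * B ^ (2 * q) * (N * ((NoOne n q).card + 1))) := by
        exact add_le_add le_rfl (mul_le_mul_of_nonneg_left hmom (by positivity))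
    _ = N * a0 + N * a0 * ((k * B ^ (2 * q) * ((NoOne n q).card + 1)) / a0 ^ (2 * q)) := by
        ring
    _ ≤ N * a0 + N * a0 * 1 := by
        refine add_le_add le_rfl (mul_le_mul_of_nonneg_left ?_ (by positivity))
        rw [div_le_one (by positivity)]
        refine le_trans ?_ hfin
        gcongr
    _ = 2 * η * n * N := by rw [ha0]; ring

/-- arbitrary matrices -/
theorem win_at (B η : ℝ) (hB : 0 < B) (hη : 0 < η) : ∃ δ : ℝ, 0 < δ ∧ ∃ n0 : ℕ, 1 ≤ n0 ∧ ∀ n : ℕ,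
    n0 ≤ n → ∃ q : ℕ, 1 ≤ q ∧ ∃ κ : ℝ, 0 < κ ∧ ∀ (F : ℕ → ℂ) (N R : ℕ), (∀ m, ‖F m‖ ≤ 1) →
      GoodAt F N n R (2 * q) κ → ∀ (k : ℕ) (A : Fin n → Mk k), (k : ℝ) ≤ Real.exp (δ * n) →
        (∀ h, ‖A h‖ ≤ B) →
          ∑ m ∈ Icc 1 N, ‖∑ h : Fin n, F (m + R * (h : ℕ)) • A h‖ ≤ η * n * N := by
  classical
  obtain ⟨δ, hδ, n0, hn01, h1⟩ := win_sa B (η / 8) hB (by positivity)
  refine ⟨δ, hδ, n0, hn01, fun n hn => ?_⟩
  obtain ⟨q, hq, κ, hκ, h2⟩ := h1 n hn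
  refine ⟨q, hq, κ, hκ, fun F N R hF hG k A hk hA => ?_⟩
  obtain ⟨P, hP⟩ : ∃ P : Fin n → Mk k, P = fun h => (realPart (A h) : Mk k) := ⟨_, rfl⟩
  obtain ⟨Q, hQ⟩ : ∃ Q : Fin n → Mk k, Q = fun h => (imaginaryPart (A h) : Mk k) := ⟨_, rfl⟩
  have hPs : ∀ h, IsSelfAdjoint (P h) := fun h => by rw [hP]; exact (realPart (A h)).2
  have hQs : ∀ h, IsSelfAdjoint (Q h) := fun h => by rw [hQ]; exact (imaginaryPart (A h)).2
  have hPn : ∀ h, ‖P h‖ ≤ B := fun h => by rw [hP]; exact (realPart.norm_le (A h)).trans (hA h)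
  have hQn : ∀ h, ‖Q h‖ ≤ B := fun h => by rw [hQ]; exact (imaginaryPart.norm_le (A h)).trans (hA h)
  have hI : ‖-Complex.I‖ ≤ 1 := by simp
  have a1 := h2 F N R hF hG k P hk hPs hPn 1 (by simp)
  have a2 := h2 F N R hF hG k Q hk hQs hQn 1 (by simp)
  have a3 := h2 F N R hF hG k P hk hPs hPn (-Complex.I) hI
  have a4 := h2 F N R hF hG k Q hk hQs hQn (-Complex.I) hI
  have e0 : ∀ z : ℂ, z = (((1 * z).re : ℝ) : ℂ) + Complex.I * (((-Complex.I * z).re : ℝ) : ℂ) := by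
    intro z
    apply Complex.ext <;> simp
  have e1 : ∀ m : ℕ, ‖∑ h : Fin n, F (m + R * (h : ℕ)) • A h‖ ≤
      (‖∑ h : Fin n, (((1 * F (m + R * (h : ℕ))).re : ℝ) : ℂ) • P h‖ +
      ‖∑ h : Fin n, (((1 * F (m + R * (h : ℕ))).re : ℝ) : ℂ) • Q h‖) +
      (‖∑ h : Fin n, (((-Complex.I * F (m + R * (h : ℕ))).re : ℝ) : ℂ) • P h‖ +
      ‖∑ h : Fin n, (((-Complex.I * F (m + R * (h : ℕ))).re : ℝ) : ℂ) • Q h‖) := by
    intro m
    have e2 : ∑ h : Fin n, F (m + R * (h : ℕ)) • A h =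
        (∑ h : Fin n, (((1 * F (m + R * (h : ℕ))).re : ℝ) : ℂ) • P h +
        Complex.I • ∑ h : Fin n, (((1 * F (m + R * (h : ℕ))).re : ℝ) : ℂ) • Q h) +
        (Complex.I • ∑ h : Fin n, (((-Complex.I * F (m + R * (h : ℕ))).re : ℝ) : ℂ) • P h +
        (Complex.I * Complex.I) • ∑ h : Fin n, (((-Complex.I * F (m + R * (h : ℕ))).re : ℝ) : ℂ) • Q h) := by
      rw [smul_sum, smul_sum, smul_sum, ← sum_add_distrib, ← sum_add_distrib, ← sum_add_distrib]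
      refine sum_congr rfl fun h _ => ?_
      have e3 : A h = P h + Complex.I • Q h := by
        rw [hP, hQ]
        exact (realPart_add_I_smul_imaginaryPart (A h)).symm
      have e4 := e0 (F (m + R * (h : ℕ)))
      calc F (m + R * (h : ℕ)) • A h = ((((1 * F (m + R * (h : ℕ))).re : ℝ) : ℂ) +
            Complex.I * (((-Complex.I * F (m + R * (h : ℕ))).re : ℝ) : ℂ)) • (P h + Complex.I • Q h) := by
            rw [← e4, ← e3]
        _ = _ := by module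
    rw [e2]
    refine (norm_add_le _ _).trans (add_le_add ((norm_add_le _ _).trans (add_le_add le_rfl ?_))
      ((norm_add_le _ _).trans (add_le_add ?_ ?_)))
    · rw [norm_smul, Complex.norm_I, one_mul]
    · rw [norm_smul, Complex.norm_I, one_mul]
    · rw [norm_smul, norm_mul, Complex.norm_I, one_mul, one_mul]
  refine (sum_le_sum fun m _ => e1 m).trans ?_
  rw [sum_add_distrib, sum_add_distrib, sum_add_distrib]
  linarith

end Pool.Agent.Q270.ED
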