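import Pool.Agent.Q270.ED.Gf
import Pool.Agent.Q270.ED.Cnt

/-!
Project ED (helper270): correlations of the translates with powers.
-/

set_option autoImplicit false

namespace Pool.Agent.Q270.ED

open Finset Filter Pool.Agent.Q270.EA Pool.Agent.Q270.EB Pool.Agent.Q270.EC
open Pool.Agent.Q163.ND (ct)

/-- `z ^ a * conj z ^ b` -/
noncomputable def pw (p : ℕ × ℕ) (z : ℂ) : ℂ := z ^ p.1 * starRingEnd ℂ z ^ p.2

lemma pw_mul (p : ℕ × ℕ) (z z' : ℂ) : pw p (z * z') = pw p z * pw p z' := by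
  unfold pw
  rw [map_mul, mul_pow, mul_pow]
  ring

lemma pw_prod {ι : Type} (s : Finset ι) (p : ℕ × ℕ) (u : ι → ℂ) : pw p (∏ i ∈ s, u i) = ∏ i ∈ s, pw p (u i) := by
  unfold pw
  rw [map_prod, ← prod_pow, ← prod_pow, ← prod_mul_distrib]

lemma conj_pw (a b : ℕ) (z : ℂ) : starRingEnd ℂ (pw (a, b) z) = pw (b, a) z := by
  unfold pw
  rw [map_mul, map_pow, map_pow, Complex.conj_conj, mul_comm]

lemma norm_pw_le (p : ℕ × ℕ) {z : ℂ} (hz : ‖z‖ ≤ 1) : ‖pw p z‖ ≤ 1 := by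
  unfold pw
  rw [norm_mul, norm_pow, norm_pow, RCLike.norm_conj]
  exact mul_le_one₀ (pow_le_one₀ (norm_nonneg _) hz) (by positivity) (pow_le_one₀ (norm_nonneg _) hz)

lemma pw_one (z : ℂ) : pw (1, 0) z = z := by
  unfold pw
  simp

lemma BM_pw {f : ℕ → ℂ} (hf : BM f) (p : ℕ × ℕ) : BM (fun n => pw p (f n)) := by
  refine ⟨fun n => norm_pw_le p (hf.1 n), ?_, fun m n hmn => ?_⟩
  · show pw p (f 1) = 1
    rw [hf.2.1]
    unfold pw
    simp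
  · show pw p (f (m * n)) = pw p (f m) * pw p (f n)
    rw [hf.2.2 m n hmn, pw_mul]

/-- correlations of the translates, one pattern with powers -/
lemma ppat_one (f : ℕ → ℂ) (hf : BM f) (hE : EllU f) (k L R : ℕ) (hL : 2 ≤ L) (h : Fin (k + 1) → ℤ)
    (hh : Function.Injective h) (hR : ∀ i j, |h i - h j| < R) (σ : Fin L → ℕ × ℕ) (s₀ : Fin L)
    (hσ : σ s₀ = (1, 0)) (ε : ℝ) (hε : 0 < ε) :
    ∃ X₀ : ℕ, ∀ X : ℕ, X₀ ≤ X → ∀ g : Fin k → ℕ → ℂ, (∀ j, BM (g j)) →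
      AS X (fun n => ∏ s, pw (σ s) (cor h f g (n + R * s))) ≤ ε := by
  classical
  obtain ⟨K, hK⟩ : ∃ K : ℕ, K + 1 = L * (k + 1) :=
    ⟨L * (k + 1) - 1, Nat.sub_add_cancel (Nat.mul_pos (by omega) (by omega))⟩
  have hK1 : 1 ≤ K := by
    have : 2 * (k + 1) ≤ L * (k + 1) := Nat.mul_le_mul_right _ hL
    omega
  obtain ⟨e₀⟩ : Nonempty (Fin (K + 1) ≃ Fin L × Fin (k + 1)) :=
    ⟨(finCongr hK).trans finProdFinEquiv.symm⟩
  obtain ⟨e, he⟩ : ∃ e : Fin (K + 1) ≃ Fin L × Fin (k + 1), e 0 = (s₀, 0) :=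
    ⟨(Equiv.swap 0 (e₀.symm (s₀, 0))).trans e₀, by simp⟩
  have hRpos : (0 : ℤ) < R := (abs_nonneg _).trans_lt (hR 0 0)
  have ha : Function.Injective (fun i : Fin (K + 1) => (R : ℤ) * ((e i).1 : ℕ) + h (e i).2) := by
    intro i j hij
    dsimp only at hij
    have h1 := hR (e j).2 (e i).2
    have h2 : h (e j).2 - h (e i).2 = (R : ℤ) * (((e i).1 : ℕ) - ((e j).1 : ℕ) : ℤ) := by
      rw [mul_sub]
      linarith
    rw [h2, abs_mul, abs_of_pos hRpos] at h1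
    have h3 : |(((e i).1 : ℕ) : ℤ) - ((e j).1 : ℕ)| < 1 := by
      by_contra hcon
      push Not at hcon
      have : (R : ℤ) * 1 ≤ R * |(((e i).1 : ℕ) : ℤ) - ((e j).1 : ℕ)| :=
        mul_le_mul_of_nonneg_left hcon hRpos.le
      linarith
    have h4 : (((e i).1 : ℕ) : ℤ) - ((e j).1 : ℕ) = 0 := Int.abs_lt_one_iff.1 h3
    have h5 : (e i).1 = (e j).1 := Fin.ext (by omega)
    rw [h4, mul_zero] at h2
    have h6 : (e i).2 = (e j).2 := hh (by linarith)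
    exact e.injective (Prod.ext h5 h6)
  obtain ⟨w₀, X₀, hX₀⟩ := hE K hK1 _ ha ε hε
  refine ⟨X₀, fun X hX g hg => ?_⟩
  obtain ⟨gg, hgg⟩ : ∃ gg : Fin (k + 1) → ℕ → ℂ, gg = Fin.cons f g := ⟨_, rfl⟩
  have hgg1 : ∀ j, BM (gg j) := by
    intro j
    rw [hgg]
    refine Fin.cases ?_ (fun j => ?_) j
    · exact hf
    · exact hg j
  have h1 := hX₀ X hX (fun i n => pw (σ (e i.succ).1) (gg (e i.succ).2 n))
    (fun _ _ => 1) (fun i => BM_pw (hgg1 _) _) (fun _ => QM_one' w₀)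
  simp only [mul_one] at h1
  refine le_trans (le_of_eq ?_) h1
  congr 1
  funext n
  have h2 : ∀ s : Fin L, pw (σ s) (cor h f g (n + R * s)) =
      ∏ j : Fin (k + 1), (pw (σ s) (gg j ((n + ((R : ℤ) * (s : ℕ) + h j) : ℤ).toNat))) := by
    intro s
    have h3 : ∀ j, (((n + R * (s : ℕ) : ℕ) : ℤ) + h j) = (n + ((R : ℤ) * (s : ℕ) + h j) : ℤ) := by
      intro j
      push_cast
      ring
    unfold cor
    rw [pw_mul, pw_prod, Fin.prod_univ_succ, hgg]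
    simp only [Fin.cons_zero, Fin.cons_succ, h3]
  simp only [h2]
  rw [← Fintype.prod_prod_type' (f := fun (s : Fin L) (j : Fin (k + 1)) =>
    pw (σ s) (gg j ((n + ((R : ℤ) * (s : ℕ) + h j) : ℤ).toNat))), ← Equiv.prod_comp e,
    Fin.prod_univ_succ, he]
  unfold cor
  dsimp only
  rw [he]
  dsimp only
  rw [hσ, pw_one, hgg]
  simp only [Fin.cons_zero]

lemma ppat_all (f : ℕ → ℂ) (hf : BM f) (hE : EllU f) (k L R : ℕ) (hL : 2 ≤ L) (h : Fin (k + 1) → ℤ)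
    (hh : Function.Injective h) (hR : ∀ i j, |h i - h j| < R) (σ : Fin L → ℕ × ℕ)
    (hσ : ∃ s, σ s = (1, 0) ∨ σ s = (0, 1)) (ε : ℝ) (hε : 0 < ε) :
    ∃ X₀ : ℕ, ∀ X : ℕ, X₀ ≤ X → ∀ g : Fin k → ℕ → ℂ, (∀ j, BM (g j)) →
      AS X (fun n => ∏ s, pw (σ s) (cor h f g (n + R * s))) ≤ ε := by
  obtain ⟨s₀, hs₀⟩ := hσ
  rcases hs₀ with h1 | h2
  · exact ppat_one f hf hE k L R hL h hh hR σ s₀ h1 ε hε
  · obtain ⟨X₀, hX⟩ := ppat_one f hf hE k L R hL h hh hR (fun s => ((σ s).2, (σ s).1)) s₀ (by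
      rw [h2]) ε hε
    refine ⟨X₀, fun X hXX g hg => le_trans (le_of_eq ?_) (hX X hXX g hg)⟩
    unfold AS
    congr 1
    refine sum_congr rfl fun N _ => ?_
    congr 1
    have h4 : ∀ n : ℕ, ∏ s, pw ((σ s).2, (σ s).1) (cor h f g (n + R * s)) =
        starRingEnd ℂ (∏ s, pw (σ s) (cor h f g (n + R * s))) := by
      intro n
      rw [map_prod]
      exact prod_congr rfl fun s _ => (conj_pw _ _ _).symm
    simp only [h4]
    exact (norm_AvN_conj N _).symm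

/-- all correlations of the translates with powers at most `D`, some of them simple, are small -/
def GoodAt (F : ℕ → ℂ) (N n R D : ℕ) (κ : ℝ) : Prop :=
  ∀ σ : Fin n → Fin (D + 1) × Fin (D + 1), (∃ s, (((σ s).1 : ℕ) = 1 ∧ ((σ s).2 : ℕ) = 0) ∨
    (((σ s).1 : ℕ) = 0 ∧ ((σ s).2 : ℕ) = 1)) →
    ‖AvN N (fun m => ∏ s, pw (((σ s).1 : ℕ), ((σ s).2 : ℕ)) (F (m + R * s)))‖ ≤ κ

/-- almost all scales are good -/
lemma goodAt (f : ℕ → ℂ) (hf : BM f) (hE : EllU f) (k L R D : ℕ) (hL : 2 ≤ L) (h : Fin (k + 1) → ℤ)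
    (hh : Function.Injective h) (hR : ∀ i j, |h i - h j| < R) (κ ε : ℝ) (hκ : 0 < κ) (hε : 0 < ε) :
    ∃ X₀ : ℕ, ∀ X : ℕ, X₀ ≤ X → ∀ g : Fin k → ℕ → ℂ, (∀ j, BM (g j)) →
      LM X (fun N => ¬ GoodAt (cor h f g) N L R D κ) ≤ ε := by
  classical
  obtain ⟨S, hS⟩ : ∃ S : Finset (Fin L → Fin (D + 1) × Fin (D + 1)), S = univ.filter
    (fun σ : Fin L → Fin (D + 1) × Fin (D + 1) => ∃ s : Fin L, (((σ s).1 : ℕ) = 1 ∧ ((σ s).2 : ℕ) = 0) ∨ (((σ s).1 : ℕ) = 0 ∧ ((σ s).2 : ℕ) = 1)) := ⟨_, rfl⟩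
  have hc : (0 : ℝ) < (S.card : ℝ) + 1 := by positivity
  have h0 : ∀ σ : Fin L → Fin (D + 1) × Fin (D + 1), σ ∈ S → ∃ X₀ : ℕ, ∀ X : ℕ, X₀ ≤ X →
      ∀ g : Fin k → ℕ → ℂ, (∀ j, BM (g j)) →
      AS X (fun n => ∏ s, pw (((σ s).1 : ℕ), ((σ s).2 : ℕ)) (cor h f g (n + R * s))) ≤
        ε / (S.card + 1) * κ := by
    intro σ hσ
    rw [hS, mem_filter] at hσ
    obtain ⟨s, hs⟩ := hσ.2
    refine ppat_all f hf hE k L R hL h hh hR (fun s => (((σ s).1 : ℕ), ((σ s).2 : ℕ))) ⟨s, ?_⟩ _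
      (by positivity)
    rcases hs with hs | hs
    · exact Or.inl (Prod.ext hs.1 hs.2)
    · exact Or.inr (Prod.ext hs.1 hs.2)
  choose! Xf hXf using h0
  refine ⟨∑ σ ∈ S, Xf σ + 1, fun X hX g hg => ?_⟩
  refine (LM_mono X (Q := fun N => ∃ σ ∈ S, κ ≤ ‖AvN N (fun m => ∏ s, pw (((σ s).1 : ℕ), ((σ s).2 : ℕ))
    (cor h f g (m + R * s)))‖) fun N _ hN => ?_).trans ((LM_ex _ X _).trans ?_)
  · by_contra hcon
    push Not at hcon
    apply hN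
    intro σ hσ
    exact (hcon σ (by rw [hS, mem_filter]; exact ⟨mem_univ _, hσ⟩)).le
  · have h1 : ∀ σ ∈ S, LM X (fun N => κ ≤ ‖AvN N (fun m => ∏ s, pw (((σ s).1 : ℕ), ((σ s).2 : ℕ))
        (cor h f g (m + R * s)))‖) ≤ ε / (S.card + 1) := by
      intro σ hσ
      have h2 : Xf σ ≤ ∑ σ ∈ S, Xf σ := single_le_sum (f := Xf) (fun _ _ => Nat.zero_le _) hσ
      refine (LM_markov X _ (fun N => ‖AvN N (fun m => ∏ s, pw (((σ s).1 : ℕ), ((σ s).2 : ℕ))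
        (cor h f g (m + R * s)))‖) κ hκ (fun N => norm_nonneg _) (fun N _ hN => hN)).trans ?_
      rw [div_le_iff₀ hκ]
      exact hXf σ hσ X (by omega) g hg
    refine (sum_le_sum h1).trans ?_
    rw [sum_const, nsmul_eq_mul, mul_div, div_le_iff₀ hc]
    nlinarith

end Pool.Agent.Q270.ED
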